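import Pool.Agent.Helper39.SQ.Goals
import Pool.Agent.Helper39.Net.Spanner

/-!
# MP_9b2a83_an, packet SQ-SPAN: `(1 + 5 / 2^q)`-networks from local hubs
-/

set_option autoImplicit false

namespace Pool.Agent.Helper42.SQ.SPAN

open Pool.Agent.Helper39.Net Pool.Agent.Helper39.SQ

/-- The telescoping sum with step `m`. -/
theorem telescope (a : ℕ → ℕ) (ha : ∀ k, a (k + 1) ≤ a k) (J m : ℕ) :
    ∑ k ∈ Finset.range J, (a k - a (k + m)) ≤ m * a 0 := by
  have hanti : ∀ k m, a (k + m) ≤ a k := by
    intro k m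
    induction m with
    | zero => simp
    | succ m ih => exact (ha (k + m)).trans ih
  induction m with
  | zero => simp
  | succ m ih =>
    have h1 : ∀ k, a k - a (k + (m + 1)) = (a k - a (k + m)) + (a (k + m) - a (k + m + 1)) := by
      intro k
      have e1 := hanti k m
      have e2 := ha (k + m)
      have e3 : a (k + (m + 1)) = a (k + m + 1) := rfl
      omega
    have h2 : ∑ k ∈ Finset.range J, (a (k + m) - a (k + m + 1)) ≤ a 0 := by
      have h3 := telescope1 (fun k => a (k + m)) (fun k => by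
        have := ha (k + m)
        have e : k + 1 + m = k + m + 1 := by ring
        simpa [e] using this) J
      have e4 : ∀ k, a (k + 1 + m) = a (k + m + 1) := fun k => by
        congr 1
        ring
      simp only [e4, zero_add] at h3
      have := hanti 0 m
      rw [zero_add] at this
      exact h3.trans this
    calc ∑ k ∈ Finset.range J, (a k - a (k + (m + 1)))
        = ∑ k ∈ Finset.range J, (a k - a (k + m)) +
          ∑ k ∈ Finset.range J, (a (k + m) - a (k + m + 1)) := by
          rw [← Finset.sum_add_distrib]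
          exact Finset.sum_congr rfl fun k _ => h1 k
      _ ≤ m * a 0 + a 0 := Nat.add_le_add ih h2
      _ = (m + 1) * a 0 := by ring

theorem thm : G_SPAN := by
  classical
  intro E ρ hsymm htri h0 hpos q T hq H hHcard hHub X
  have hnn : ∀ x y, 0 ≤ ρ x y := fun x y => by
    by_cases h : x = y
    · rw [h, h0]
    · exact (hpos x y h).le
  -- base scale
  obtain ⟨δ, hδ, hsepδ⟩ : ∃ δ : ℝ, 0 < δ ∧ ∀ x ∈ X, ∀ y ∈ X, x ≠ y → δ ≤ ρ x y := by
    by_cases hne : (X.offDiag).Nonempty
    · obtain ⟨p, hp, hmin⟩ := Finset.exists_min_image X.offDiag (fun p => ρ p.1 p.2) hne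
      rw [Finset.mem_offDiag] at hp
      exact ⟨ρ p.1 p.2, hpos _ _ hp.2.2, fun x hx y hy hxy =>
        hmin (x, y) (Finset.mem_offDiag.2 ⟨hx, hy, hxy⟩)⟩
    · refine ⟨1, one_pos, fun x hx y hy hxy => absurd ⟨(x, y), ?_⟩ hne⟩
      exact Finset.mem_offDiag.2 ⟨hx, hy, hxy⟩
  have h2q : (4 : ℝ) ≤ 2 ^ q := by
    calc (4 : ℝ) = 2 ^ 2 := by norm_num
      _ ≤ 2 ^ q := pow_le_pow_right₀ (by norm_num) hq
  have h2q0 : (0 : ℝ) < 2 ^ q := by positivity
  obtain ⟨r0, hr0, hr0δ⟩ : ∃ r0 : ℝ, 0 < r0 ∧ 2 ^ (q + 1) * r0 = δ :=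
    ⟨δ / 2 ^ (q + 1), by positivity, by field_simp⟩
  let r : ℕ → ℝ := fun k => r0 * 2 ^ k
  have hrpos : ∀ k, 0 < r k := fun k => by positivity
  have hrs : ∀ k, r (k + 1) = 2 * r k := fun k => by simp only [r, pow_succ]; ring
  have hr00 : r 0 = r0 := by simp [r]
  choose! nt hntsub hntsep hntden using fun (Y : Finset E) (r : ℝ) (hr : 0 < r) =>
    exists_net hsymm h0 Y r hr
  let N : ℕ → Finset E := fun k => Nat.rec X (fun k Y => nt Y (r (k + 1))) k
  have hN0 : N 0 = X := rfl
  have hNs : ∀ k, N (k + 1) = nt (N k) (r (k + 1)) := fun k => rfl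
  have hsub : ∀ k, N (k + 1) ⊆ N k := fun k => by
    rw [hNs]; exact hntsub _ _ (hrpos _)
  have hsubm : ∀ k m, N (k + m) ⊆ N k := fun k m => by
    induction m with
    | zero => exact subset_rfl
    | succ m ih => exact (hsub (k + m)).trans ih
  have hsep : ∀ k, ∀ x ∈ N k, ∀ y ∈ N k, x ≠ y → r k ≤ ρ x y := by
    intro k
    cases k with
    | zero =>
      intro x hx y hy hxy
      have h1 := hsepδ x hx y hy hxy
      rw [hr00]
      have h2 : (2 : ℝ) ^ (q + 1) = 2 * 2 ^ q := by ring
      rw [h2] at hr0δ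
      nlinarith
    | succ k => rw [hNs]; exact hntsep _ _ (hrpos _)
  have hden : ∀ k, ∀ x ∈ N k, ∃ z ∈ N (k + 1), ρ x z < r (k + 1) := by
    intro k
    rw [hNs]
    exact hntden _ _ (hrpos _)
  choose! par hparmem hpardist using hden
  -- top scale
  obtain ⟨J, hJ⟩ : ∃ J, ∀ x ∈ X, ∀ y ∈ X, ρ x y < 2 ^ (q + 1) * r J := by
    obtain ⟨B, hB⟩ : ∃ B : ℝ, ∀ x ∈ X, ∀ y ∈ X, ρ x y ≤ B := by
      obtain ⟨B, hB⟩ := (((X ×ˢ X).image fun p => ρ p.1 p.2).finite_toSet).bddAbove
      exact ⟨B, fun x hx y hy => hB (by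
        rw [Finset.coe_image]
        exact ⟨(x, y), Finset.mem_coe.2 (Finset.mem_product.2 ⟨hx, hy⟩), rfl⟩)⟩
    obtain ⟨J, hJ⟩ := pow_unbounded_of_one_lt (B / δ) (by norm_num : (1 : ℝ) < 2)
    refine ⟨J, fun x hx y hy => ?_⟩
    have h2 := hB x hx y hy
    rw [div_lt_iff₀ hδ] at hJ
    have h3 : 2 ^ (q + 1) * r J = 2 ^ J * δ := by
      simp only [r]
      rw [← hr0δ]
      ring
    rw [h3]
    linarith
  -- edges
  let Rel : ℕ → Finset E := fun k =>
    (N k).filter fun x => ∃ y ∈ N k, y ≠ x ∧ ρ x y ≤ 2 ^ (q + 3) * r k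
  let PE : ℕ → Finset (E × E) := fun k => (N k \ N (k + 1)).image fun x => (x, par k x)
  let HE : ℕ → Finset (E × E) := fun k => (Rel k).biUnion fun x => (H (r k) x).image fun v => (x, v)
  let S : Finset (E × E) := (Finset.range J).biUnion fun k => PE k ∪ HE k
  have hcardN : ∀ k, (N (k + 1)).card ≤ (N k).card := fun k => Finset.card_le_card (hsub k)
  have hrm : ∀ k, r (k + (q + 5)) = 4 * (2 ^ (q + 3) * r k) := fun k => by
    simp only [r]
    ring
  have hRel : ∀ k, (Rel k).card ≤ 2 * ((N k).card - (N (k + (q + 5))).card) := by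
    intro k
    have e0 : (N k \ N (k + (q + 5))).card = (N k).card - (N (k + (q + 5))).card :=
      Finset.card_sdiff_of_subset (hsubm k (q + 5))
    have e1 : ((Rel k) \ N (k + (q + 5))).card ≤ (N k \ N (k + (q + 5))).card :=
      Finset.card_le_card (Finset.sdiff_subset_sdiff (Finset.filter_subset _ _) subset_rfl)
    have hp : 0 < 2 ^ (q + 3) * r k := mul_pos (by positivity) (hrpos k)
    have e2 : ((Rel k) ∩ N (k + (q + 5))).card ≤ (N k \ N (k + (q + 5))).card := by
      have hg : ∀ x ∈ (Rel k) ∩ N (k + (q + 5)), ∃ y ∈ N k, y ≠ x ∧ ρ x y ≤ 2 ^ (q + 3) * r k :=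
        fun x hx => (Finset.mem_filter.1 (Finset.mem_inter.1 hx).1).2
      choose! g hg1 hg2 hg3 using hg
      refine Finset.card_le_card_of_injOn g ?_ ?_
      · intro x hx
        have hx' := Finset.mem_coe.1 hx
        refine Finset.mem_coe.2 (Finset.mem_sdiff.2 ⟨hg1 x hx', fun hmem => ?_⟩)
        have := hsep (k + (q + 5)) x (Finset.mem_inter.1 hx').2 (g x) hmem (hg2 x hx').symm
        rw [hrm] at this
        have h3 := hg3 x hx'
        linarith
      · intro x hx y hy hxy
        have hx' := Finset.mem_coe.1 hx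
        have hy' := Finset.mem_coe.1 hy
        by_contra hne
        have := hsep (k + (q + 5)) x (Finset.mem_inter.1 hx').2 y (Finset.mem_inter.1 hy').2 hne
        rw [hrm] at this
        have h3 := hg3 x hx'
        have h5 := hg3 y hy'
        have h6 := htri x (g x) y
        rw [hsymm (g x) y, hxy] at h6
        rw [hxy] at h3
        linarith
    have e3 : (Rel k).card = ((Rel k) \ N (k + (q + 5))).card +
        ((Rel k) ∩ N (k + (q + 5))).card := (Finset.card_sdiff_add_card_inter _ _).symm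
    omega
  refine ⟨S, ?_, ?_⟩
  · have h1 : S.card ≤ ∑ k ∈ Finset.range J, (((N k).card - (N (k + 1)).card) +
        (2 * ((N k).card - (N (k + (q + 5))).card)) * T) := by
      refine Finset.card_biUnion_le.trans (Finset.sum_le_sum fun k _ => ?_)
      refine (Finset.card_union_le _ _).trans (Nat.add_le_add ?_ ?_)
      · refine Finset.card_image_le.trans (le_of_eq ?_)
        exact Finset.card_sdiff_of_subset (hsub k)
      · refine Finset.card_biUnion_le.trans ?_
        calc ∑ x ∈ Rel k, ((H (r k) x).image fun v => (x, v)).card ≤ ∑ _x ∈ Rel k, T :=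
              Finset.sum_le_sum fun x _ => Finset.card_image_le.trans (hHcard _ _)
          _ = (Rel k).card * T := by rw [Finset.sum_const, smul_eq_mul]
          _ ≤ (2 * ((N k).card - (N (k + (q + 5))).card)) * T :=
              Nat.mul_le_mul_right _ (hRel k)
    rw [Finset.sum_add_distrib] at h1
    have h2 := telescope1 (fun k => (N k).card) hcardN J
    have h3 := telescope (fun k => (N k).card) hcardN J (q + 5)
    have h4 : ∑ k ∈ Finset.range J, (2 * ((N k).card - (N (k + (q + 5))).card)) * T =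
        2 * T * ∑ k ∈ Finset.range J, ((N k).card - (N (k + (q + 5))).card) := by
      rw [Finset.mul_sum]
      exact Finset.sum_congr rfl fun k _ => by ring
    rw [h4] at h1
    rw [← hN0]
    calc S.card ≤ _ := h1
      _ ≤ (N 0).card + 2 * T * ((q + 5) * (N 0).card) :=
          Nat.add_le_add h2 (Nat.mul_le_mul_left _ h3)
      _ = (N 0).card * (1 + 2 * (q + 5) * T) := by ring
  · -- ancestors
    have hanc : ∀ s ≤ J, ∀ x ∈ X, ∃ x' ∈ N s, ρ x x' ≤ 2 * r s ∧
        Reach ρ (S : Set (E × E)) x x' (2 * r s) := by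
      intro s
      induction s with
      | zero =>
        intro _ x hx
        have := hrpos 0
        exact ⟨x, hx, by rw [h0]; linarith, Reach.refl (by linarith)⟩
      | succ s ih =>
        intro hs x hx
        obtain ⟨x1, hx1, hd1, hr1⟩ := ih (by omega) x hx
        have hrp := hrpos (s + 1)
        by_cases h : x1 ∈ N (s + 1)
        · refine ⟨x1, h, ?_, hr1.mono ?_⟩ <;> (rw [hrs s]; linarith [hrpos s])
        · refine ⟨par s x1, hparmem s x1 hx1, ?_, ?_⟩
          · have h3 := htri x x1 (par s x1)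
            have h4 := hpardist s x1 hx1
            have h5 := hrs s
            linarith
          · have hE : Reach ρ (S : Set (E × E)) x1 (par s x1) (ρ x1 (par s x1)) := by
              refine Reach.edge (Or.inl ?_)
              refine Finset.mem_coe.2 (Finset.mem_biUnion.2 ⟨s, Finset.mem_range.2 (by omega), ?_⟩)
              exact Finset.mem_union_left _ (Finset.mem_image.2
                ⟨x1, Finset.mem_sdiff.2 ⟨hx1, h⟩, rfl⟩)
            refine (hr1.trans hE).mono ?_
            have h4 := hpardist s x1 hx1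
            have h5 := hrs s
            linarith
    intro x hx y hy
    by_cases hxy : x = y
    · subst hxy
      refine Reach.refl ?_
      rw [h0]
      simp
    -- the scale
    have hD0 : 2 ^ (q + 1) * r 0 ≤ ρ x y := by
      rw [hr00, hr0δ]
      exact hsepδ x hx y hy hxy
    have hex : ∃ s, ρ x y < 2 ^ (q + 1) * r s := ⟨J, hJ x hx y hy⟩
    have hfind := Nat.find_spec hex
    have hfindJ : Nat.find hex ≤ J := Nat.find_min' hex (hJ x hx y hy)
    obtain ⟨s, hs⟩ : ∃ s, Nat.find hex = s + 1 := by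
      refine ⟨Nat.find hex - 1, ?_⟩
      have : Nat.find hex ≠ 0 := by
        intro h
        rw [h] at hfind
        linarith
      omega
    have hs1 : 2 ^ (q + 1) * r s ≤ ρ x y := by
      have := Nat.find_min hex (m := s) (by omega)
      push Not at this
      exact this
    rw [hs, hrs s] at hfind
    have hsJ : s < J := by omega
    obtain ⟨x', hx', dx, rx⟩ := hanc s hsJ.le x hx
    obtain ⟨y', hy', dy, ry⟩ := hanc s hsJ.le y hy
    have hrp := hrpos s
    have e1 : (2 : ℝ) ^ (q + 1) = 2 * 2 ^ q := by ring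
    have e3 : (2 : ℝ) ^ (q + 3) = 8 * 2 ^ q := by ring
    rw [e1] at hs1 hfind
    have hqr : 4 * r s ≤ 2 ^ q * r s := mul_le_mul_of_nonneg_right h2q hrp.le
    have hup : ρ x' y' ≤ ρ x y + 4 * r s := by
      have t1 := htri x' x y'
      have t2 := htri x y y'
      rw [hsymm x' x] at t1
      linarith
    have hlo : ρ x y ≤ ρ x' y' + 4 * r s := by
      have t1 := htri x x' y
      have t2 := htri x' y' y
      rw [hsymm y' y] at t2
      linarith
    have hl : 2 ^ q * r s ≤ ρ x' y' := by linarith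
    have hu : ρ x' y' ≤ 2 ^ (q + 3) * r s := by
      rw [e3]
      nlinarith
    have hne : x' ≠ y' := by
      intro h
      rw [h, h0] at hl
      nlinarith
    obtain ⟨v, hv1, hv2, hv⟩ := hHub (r s) hrp x' y' hl hu
    have hxR : x' ∈ Rel s := Finset.mem_filter.2 ⟨hx', y', hy', Ne.symm hne, hu⟩
    have hyR : y' ∈ Rel s := Finset.mem_filter.2 ⟨hy', x', hx', hne, by rwa [hsymm]⟩
    have hmem : ∀ a ∈ Rel s, v ∈ H (r s) a → (a, v) ∈ (S : Set (E × E)) := by
      intro a ha hva
      refine Finset.mem_coe.2 (Finset.mem_biUnion.2 ⟨s, Finset.mem_range.2 hsJ, ?_⟩)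
      exact Finset.mem_union_right _ (Finset.mem_biUnion.2 ⟨a, ha, Finset.mem_image.2
        ⟨v, hva, rfl⟩⟩)
    have r1 : Reach ρ (S : Set (E × E)) x' v (ρ x' v) := Reach.edge (Or.inl (hmem _ hxR hv1))
    have r2 : Reach ρ (S : Set (E × E)) v y' (ρ v y') := Reach.edge (Or.inr (hmem _ hyR hv2))
    refine ((((rx.trans r1).trans r2).trans (ry.symm hsymm))).mono ?_
    have h10 : 10 * r s ≤ 5 / 2 ^ q * ρ x y := by
      have h5 : 5 / 2 ^ q * (2 * 2 ^ q * r s) ≤ 5 / 2 ^ q * ρ x y :=
        mul_le_mul_of_nonneg_left hs1 (by positivity)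
      have h6 : (5 : ℝ) / 2 ^ q * (2 * 2 ^ q * r s) = 10 * r s := by
        field_simp
        ring
      linarith
    linarith

end Pool.Agent.Helper42.SQ.SPAN
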